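import Pool.Agent.AT6.Stmts3

/-! Squad AT6, row PIG. -/

set_option autoImplicit false

namespace Pool.Agent.PP.T6.H85

theorem fsum_sub {G : Type} [Group G] [Fintype G] (W : Subgroup G) [DecidablePred (· ∈ W)]
    (f : G → ℝ) : (∑ᶠ (z : G) (_ : z ∈ W), f z) = ∑ z ∈ Finset.univ.filter (· ∈ W), f z := by
  rw [finsum_eq_sum_of_fintype, Finset.sum_filter]
  refine Finset.sum_congr rfl fun z _ => ?_
  rw [finsum_eq_if]

theorem card_sub {G : Type} [Group G] [Fintype G] (W : Subgroup G) [DecidablePred (· ∈ W)] :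
    Nat.card W = (Finset.univ.filter (· ∈ W)).card := by
  rw [Nat.card_eq_fintype_card]
  exact Fintype.card_subtype _

theorem pig : PigStmt := by
  intro ℓ hℓ G _ _ V hV a ha hexp W hW hWa F hF
  classical
  have : Fintype G := Fintype.ofFinite G
  have hp : ℓ.Prime := hℓ.out
  set VF : Finset G := Finset.univ.filter (· ∈ V) with hVF
  set WF : Finset G := Finset.univ.filter (· ∈ W) with hWF
  set VP : Finset G := VF.filter (fun v => v ^ ℓ ^ (a - 1) ≠ 1) with hVP
  set VK : Finset G := VF.filter (fun v => ¬ v ^ ℓ ^ (a - 1) ≠ 1) with hVK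
  have hpow : ∀ v ∈ V, v ^ ℓ ^ a = 1 := by
    intro v hv
    have h1 : (⟨v, hv⟩ : V) ^ Monoid.exponent V = 1 := Monoid.pow_exponent_eq_one _
    rw [hexp] at h1
    have h2 := congrArg (Subtype.val : V → G) h1
    simpa using h2
  have hord : ∀ v ∈ V, v ^ ℓ ^ (a - 1) ≠ 1 → orderOf v = ℓ ^ a := by
    intro v hv hne
    obtain ⟨b, rfl⟩ : ∃ b, a = b + 1 := ⟨a - 1, by omega⟩
    rw [Nat.add_sub_cancel] at hne
    exact orderOf_eq_prime_pow hne (hpow v hv)
  -- an element of order ℓ ^ a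
  obtain ⟨u, huV, hu⟩ : ∃ u ∈ V, u ^ ℓ ^ (a - 1) ≠ 1 := by
    by_contra hcon
    push Not at hcon
    have h1 : Monoid.exponent V ∣ ℓ ^ (a - 1) := by
      apply Monoid.exponent_dvd_of_forall_pow_eq_one
      intro g
      apply Subtype.ext
      simpa using hcon g.1 g.2
    rw [hexp] at h1
    have h2 := (Nat.pow_dvd_pow_iff_le_right hp.one_lt).1 h1
    omega
  have hmulpow : ∀ x ∈ V, ∀ y ∈ V, ∀ n : ℕ, (x * y) ^ n = x ^ n * y ^ n := by
    intro x hx y hy n
    exact (show Commute x y from hV x hx y hy).mul_pow n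
  -- the map v ↦ u v sends VK into VP
  have hcard : VF.card ≤ 2 * VP.card := by
    have h1 : VP.card + VK.card = VF.card := Finset.card_filter_add_card_filter_not _
    have h2 : VK.card ≤ VP.card := by
      apply Finset.card_le_card_of_injOn (fun v => u * v)
      · intro v hv
        have hv' : v ∈ VK := hv
        rw [hVK, Finset.mem_filter, hVF, Finset.mem_filter] at hv'
        have hvV := hv'.1.2
        have hv1 : v ^ ℓ ^ (a - 1) = 1 := not_not.1 hv'.2
        show u * v ∈ VP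
        rw [hVP, Finset.mem_filter, hVF, Finset.mem_filter]
        refine ⟨⟨Finset.mem_univ _, V.mul_mem huV hvV⟩, ?_⟩
        rw [hmulpow u huV v hvV, hv1, mul_one]
        exact hu
      · intro x _ y _ hxy
        exact mul_left_cancel hxy
    omega
  have hVPne : VP.Nonempty := by
    refine ⟨u, ?_⟩
    rw [hVP, Finset.mem_filter, hVF, Finset.mem_filter]
    exact ⟨⟨Finset.mem_univ _, huV⟩, hu⟩
  -- double counting
  have hshift : ∀ z ∈ WF, ∑ v ∈ VP, F (v * z) = ∑ v ∈ VP, F v := by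
    intro z hz
    rw [hWF, Finset.mem_filter] at hz
    have hzW := hz.2
    have hzV := hW hzW
    refine Finset.sum_bij (fun v _ => v * z) ?_ ?_ ?_ ?_
    · intro v hv
      rw [hVP, Finset.mem_filter, hVF, Finset.mem_filter] at hv ⊢
      refine ⟨⟨Finset.mem_univ _, V.mul_mem hv.1.2 hzV⟩, ?_⟩
      rw [hmulpow v hv.1.2 z hzV, hWa z hzW, mul_one]
      exact hv.2
    · intro x _ y _ hxy
      exact mul_right_cancel hxy
    · intro v hv
      rw [hVP, Finset.mem_filter, hVF, Finset.mem_filter] at hv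
      refine ⟨v * z⁻¹, ?_, by group⟩
      rw [hVP, Finset.mem_filter, hVF, Finset.mem_filter]
      refine ⟨⟨Finset.mem_univ _, V.mul_mem hv.1.2 (V.inv_mem hzV)⟩, ?_⟩
      rw [hmulpow v hv.1.2 z⁻¹ (V.inv_mem hzV), hWa z⁻¹ (W.inv_mem hzW), mul_one]
      exact hv.2
    · intro v _
      rfl
  have hsum : ∑ v ∈ VP, ∑ z ∈ WF, F (v * z) = WF.card * ∑ v ∈ VP, F v := by
    rw [Finset.sum_comm, Finset.sum_congr rfl hshift, Finset.sum_const, nsmul_eq_mul]
  have hle : ∑ v ∈ VP, F v ≤ ∑ v ∈ VF, F v := by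
    apply Finset.sum_le_sum_of_subset_of_nonneg (Finset.filter_subset _ _)
    intro v hv _
    rw [hVF, Finset.mem_filter] at hv
    exact hF v hv.2
  obtain ⟨v₀, hv₀, hmin⟩ : ∃ v₀ ∈ VP, (VP.card : ℝ) * ∑ z ∈ WF, F (v₀ * z) ≤
      WF.card * ∑ v ∈ VP, F v := by
    by_contra hcon
    push Not at hcon
    have h1 : ∑ v ∈ VP, (WF.card * ∑ w ∈ VP, F w : ℝ) <
        ∑ v ∈ VP, (VP.card : ℝ) * ∑ z ∈ WF, F (v * z) :=
      Finset.sum_lt_sum_of_nonempty hVPne hcon
    rw [Finset.sum_const, nsmul_eq_mul, ← Finset.mul_sum, hsum] at h1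
    exact lt_irrefl _ h1
  have hv₀' := hv₀
  rw [hVP, Finset.mem_filter, hVF, Finset.mem_filter] at hv₀'
  have hv₀V : v₀ ∈ V := hv₀'.1.2
  refine ⟨v₀, hv₀V, fun z hz => ?_, ?_⟩
  · apply hord _ (V.mul_mem hv₀V (hW hz))
    rw [hmulpow v₀ hv₀V z (hW hz), hWa z hz, mul_one]
    exact hv₀'.2
  · rw [fsum_sub, fsum_sub, card_sub, card_sub]
    rw [← hVF, ← hWF]
    have hnn : 0 ≤ ∑ z ∈ WF, F (v₀ * z) := by
      apply Finset.sum_nonneg
      intro z hz
      rw [hWF, Finset.mem_filter] at hz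
      exact hF _ (V.mul_mem hv₀V (hW hz.2))
    have hc : (VF.card : ℝ) ≤ 2 * VP.card := by exact_mod_cast hcard
    calc (∑ z ∈ WF, F (v₀ * z)) * (VF.card : ℝ) ≤ (∑ z ∈ WF, F (v₀ * z)) * (2 * VP.card) :=
          mul_le_mul_of_nonneg_left hc hnn
      _ = 2 * ((VP.card : ℝ) * ∑ z ∈ WF, F (v₀ * z)) := by ring
      _ ≤ 2 * (WF.card * ∑ v ∈ VP, F v) := by linarith
      _ ≤ 2 * (WF.card * ∑ v ∈ VF, F v) := by
          have : (WF.card : ℝ) * ∑ v ∈ VP, F v ≤ WF.card * ∑ v ∈ VF, F v :=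
            mul_le_mul_of_nonneg_left hle (by positivity)
          linarith
      _ = 2 * (WF.card : ℝ) * ∑ v ∈ VF, F v := by ring

end Pool.Agent.PP.T6.H85
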